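import Pool.Agent.Helper20.MB.Defs

/-!
# MB-8c: the Lie derivatives along the spray in normal gauge
-/

open Filter Metric Module Set
open scoped Topology ContDiff RealInnerProductSpace Manifold

set_option maxSynthPendingDepth 3

namespace Pool.Agent.Helper93.MB
open Pool.Agent.Helper20.PC Pool.Agent.Helper20.HP Pool.Agent.Helper20.M8 Pool.Agent.Helper20.MB

section
variable {E P V W : Type*} [NormedAddCommGroup E] [NormedSpace ℝ E] [NormedAddCommGroup P]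
  [NormedSpace ℝ P] [NormedAddCommGroup V] [NormedSpace ℝ V] [NormedAddCommGroup W] [NormedSpace ℝ W]

lemma ev_diff {f : E → W} {x : E} (hf : ContDiffAt ℝ 2 f x) :
    ∀ᶠ x' in 𝓝 x, DifferentiableAt ℝ f x' :=
  (hf.eventually (by norm_num)).mono (fun _ hx => hx.differentiableAt (by norm_num))

lemma diff_fderiv {f : E → W} {x : E} (hf : ContDiffAt ℝ 2 f x) :
    DifferentiableAt ℝ (fderiv ℝ f) x :=
  (hf.fderiv_right (m := 1) (by norm_num)).differentiableAt (by norm_num)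

variable (P V) in
/-- the projection to `(x, p)`. -/
noncomputable def pr : V × V × V × P →L[ℝ] V × P :=
  (ContinuousLinearMap.fst ℝ V (V × V × P)).prod (ContinuousLinearMap.snd ℝ V P ∘L
    ContinuousLinearMap.snd ℝ V (V × P) ∘L ContinuousLinearMap.snd ℝ V (V × V × P))

/-- product rule. -/
lemma has_step {C : E → P →L[ℝ] W} {C' : E →L[ℝ] P →L[ℝ] W} {α : E → P} {α' : E →L[ℝ] P} {s : E}
    (hC : HasFDerivAt C C' s) (hα : HasFDerivAt α α' s) :
    ∃ L : E →L[ℝ] W, HasFDerivAt (fun s => C s (α s)) L s ∧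
      ∀ v, L v = C' v (α s) + C s (α' v) := by
  refine ⟨_, hC.clm_apply hα, fun v => ?_⟩
  simp [add_comm]

/-- the derivative in the first variable. -/
lemma fd_fst {F : V × P → ℝ} {x : V} {p : P} (hF : DifferentiableAt ℝ F (x, p)) (ζ : V) :
    fderiv ℝ (fun x' => F (x', p)) x ζ = fderiv ℝ F (x, p) (ζ, 0) := by
  have h1 : HasFDerivAt (fun x' : V => (x', p)) (ContinuousLinearMap.inl ℝ V P) x :=
    hasFDerivAt_prodMk_left _ _
  have h2 := HasFDerivAt.comp x hF.hasFDerivAt h1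
  have h3 : fderiv ℝ (fun x' => F (x', p)) x = _ := h2.fderiv
  rw [h3]
  rfl

lemma fd_fst2 {F : V × P → ℝ} {x : V} {p : P} (hF : ContDiffAt ℝ 2 F (x, p)) (ξ ζ : V) :
    fderiv ℝ (fun x' => fderiv ℝ (fun x'' => F (x'', p)) x' ζ) x ξ
      = fderiv ℝ (fderiv ℝ F) (x, p) (ξ, 0) (ζ, 0) := by
  have t : Filter.Tendsto (fun x' : V => (x', p)) (𝓝 x) (𝓝 (x, p)) :=
    (Continuous.prodMk continuous_id continuous_const).tendsto' _ _ rfl
  have e : (fun x' => fderiv ℝ (fun x'' => F (x'', p)) x' ζ) =ᶠ[𝓝 x]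
      fun x' => fderiv ℝ F (x', p) (ζ, 0) :=
    (t.eventually (ev_diff hF)).mono fun x' hx' => fd_fst hx' ζ
  have h1 : HasFDerivAt (fun x' : V => (x', p)) (ContinuousLinearMap.inl ℝ V P) x :=
    hasFDerivAt_prodMk_left _ _
  have h2 := HasFDerivAt.comp x (diff_fderiv hF).hasFDerivAt h1
  obtain ⟨L, h3, e3⟩ := has_step h2 (hasFDerivAt_const ((ζ, 0) : V × P) x)
  have h4 : fderiv ℝ (fun x' => fderiv ℝ F (x', p) (ζ, 0)) x = L := h3.fderiv
  rw [e.fderiv_eq, h4, e3]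
  simp

/-- Lie derivative of a function of `(x, p)`. -/
lemma lie_one {F : V × P → ℝ} (Xs : V × V × V × P → V × V × V × P) {s : V × V × V × P}
    (hF : DifferentiableAt ℝ F (s.1, s.2.2.2)) :
    lie Xs (fun s : V × V × V × P => F (s.1, s.2.2.2)) s
      = fderiv ℝ F (s.1, s.2.2.2) ((Xs s).1, (Xs s).2.2.2) := by
  have h1 : HasFDerivAt (fun s : V × V × V × P => (s.1, s.2.2.2)) (pr P V) s :=
    (pr P V).hasFDerivAt
  have h2 := HasFDerivAt.comp s hF.hasFDerivAt h1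
  have h3 : fderiv ℝ (fun s : V × V × V × P => F (s.1, s.2.2.2)) s = _ := h2.fderiv
  rw [lie, h3]
  rfl

/-- second Lie derivative of a function of `(x, p)`. -/
lemma lie_two {F : V × P → ℝ} (Xs : V × V × V × P → V × V × V × P) {s : V × V × V × P}
    (hF : ContDiffAt ℝ 2 F (s.1, s.2.2.2)) (h1 : ∀ s, (Xs s).1 = s.2.1)
    {G' : V × V × V × P →L[ℝ] P} (hG : HasFDerivAt (fun s => (Xs s).2.2.2) G' s)
    (hG0 : (Xs s).2.2.2 = 0) (hG1 : G' (Xs s) = 0) :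
    lie Xs (lie Xs (fun s : V × V × V × P => F (s.1, s.2.2.2))) s
      = fderiv ℝ (fun x' => fderiv ℝ (fun x'' => F (x'', s.2.2.2)) x' s.2.1) s.1 s.2.1
        + fderiv ℝ (fun x' => F (x', s.2.2.2)) s.1 (Xs s).2.1 := by
  have c : Filter.Tendsto (fun s : V × V × V × P => (s.1, s.2.2.2)) (𝓝 s) (𝓝 (s.1, s.2.2.2)) :=
    (pr P V).continuous.tendsto' _ _ rfl
  have e : lie Xs (fun s : V × V × V × P => F (s.1, s.2.2.2)) =ᶠ[𝓝 s]
      fun s => fderiv ℝ F (s.1, s.2.2.2) (s.2.1, (Xs s).2.2.2) :=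
    (c.eventually (ev_diff hF)).mono fun s' hs' => by rw [lie_one Xs hs', h1]
  have k1 : HasFDerivAt (fun s : V × V × V × P => (s.1, s.2.2.2)) (pr P V) s :=
    (pr P V).hasFDerivAt
  have k2 := HasFDerivAt.comp s (diff_fderiv hF).hasFDerivAt k1
  have k3 : HasFDerivAt (fun s : V × V × V × P => s.2.1)
      (ContinuousLinearMap.fst ℝ V (V × P) ∘L ContinuousLinearMap.snd ℝ V (V × V × P)) s :=
    (ContinuousLinearMap.fst ℝ V (V × P) ∘L ContinuousLinearMap.snd ℝ V (V × V × P)).hasFDerivAt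
  obtain ⟨L, k4, e4⟩ := has_step k2 (k3.prodMk hG)
  have e5 : fderiv ℝ (lie Xs (fun s : V × V × V × P => F (s.1, s.2.2.2))) s = L := by
    rw [e.fderiv_eq]
    exact k4.fderiv
  rw [lie, e5, e4, fd_fst2 hF, fd_fst (hF.differentiableAt (by norm_num)), hG0]
  have e6 : pr P V (Xs s) = (s.2.1, 0) := by
    rw [← h1 s, ← hG0]; rfl
  have e7 : ((ContinuousLinearMap.fst ℝ V (V × P) ∘L
      ContinuousLinearMap.snd ℝ V (V × V × P)).prod G') (Xs s) = ((Xs s).2.1, 0) := by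
    rw [← hG1]; rfl
  rw [e7]
  change fderiv ℝ (fderiv ℝ F) (s.1, s.2.2.2) (pr P V (Xs s)) (s.2.1, 0) + _ = _
  rw [e6]
  rfl

/-- the curvature with values in an algebra. -/
noncomputable def OmG (m : W →L[ℝ] W →L[ℝ] W) (A : V → V →L[ℝ] W) (x ζ ζ' : V) : W :=
  fderiv ℝ A x ζ ζ' - fderiv ℝ A x ζ' ζ + m (A x ζ) (A x ζ') - m (A x ζ') (A x ζ)

lemma OmG_diff (m : W →L[ℝ] W →L[ℝ] W) {A : V → V →L[ℝ] W} {z : V × V × V}
    (hA : ContDiffAt ℝ 2 A z.1) :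
    DifferentiableAt ℝ (fun z : V × V × V => OmG m A z.1 z.2.1 z.2.2) z := by
  have hA1 : DifferentiableAt ℝ (fun z : V × V × V => A z.1) z :=
    (hA.differentiableAt (by norm_num)).comp z differentiableAt_fst
  have hA2 : DifferentiableAt ℝ (fun z : V × V × V => fderiv ℝ A z.1) z :=
    (diff_fderiv hA).comp z differentiableAt_fst
  have p1 : DifferentiableAt ℝ (fun z : V × V × V => z.2.1) z :=
    differentiableAt_fst.comp z differentiableAt_snd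
  have p2 : DifferentiableAt ℝ (fun z : V × V × V => z.2.2) z :=
    differentiableAt_snd.comp z differentiableAt_snd
  have a1 := hA1.clm_apply p1
  have a2 := hA1.clm_apply p2
  exact ((((hA2.clm_apply p1).clm_apply p2).sub ((hA2.clm_apply p2).clm_apply p1)).add
    ((m.differentiableAt.comp z a1).clm_apply a2)).sub ((m.differentiableAt.comp z a2).clm_apply a1)

lemma OmG_add_left (m : W →L[ℝ] W →L[ℝ] W) (A : V → V →L[ℝ] W) (x : V) :
    ∃ B : V →L[ℝ] V →L[ℝ] W, ∀ ζ ζ', OmG m A x ζ ζ' = B ζ ζ' := by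
  refine ⟨fderiv ℝ A x - (fderiv ℝ A x).flip + m.bilinearComp (A x) (A x)
    - (m.bilinearComp (A x) (A x)).flip, fun ζ ζ' => ?_⟩
  simp [OmG]

/-- the derivative of `s ↦ Ω(s.1)(s.2.1, s.2.2.1)`. -/
lemma has_Om (m : W →L[ℝ] W →L[ℝ] W) {A : V → V →L[ℝ] W} {s : V × V × V × E}
    (hA : ContDiffAt ℝ 2 A s.1) :
    ∃ L : (V × V × V × E) →L[ℝ] W,
      HasFDerivAt (fun s : V × V × V × E => OmG m A s.1 s.2.1 s.2.2.1) L s ∧
      ∀ v : V × V × V × E, L v = fderiv ℝ (fun x' => OmG m A x' s.2.1 s.2.2.1) s.1 v.1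
        + OmG m A s.1 v.2.1 s.2.2.1 + OmG m A s.1 s.2.1 v.2.2.1 := by
  obtain ⟨B, hB⟩ := OmG_add_left m A s.1
  set z : V × V × V := (s.1, s.2.1, s.2.2.1) with hz
  have hF := (OmG_diff (z := z) m hA).hasFDerivAt
  set F' := fderiv ℝ (fun z : V × V × V => OmG m A z.1 z.2.1 z.2.2) z with hF'
  let Q : (V × V × V × E) →L[ℝ] (V × V × V) := (ContinuousLinearMap.fst ℝ V (V × V × E)).prod
        (((ContinuousLinearMap.fst ℝ V (V × E)) ∘L (ContinuousLinearMap.snd ℝ V (V × V × E))).prod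
          ((ContinuousLinearMap.fst ℝ V E) ∘L (ContinuousLinearMap.snd ℝ V (V × E)) ∘L
            (ContinuousLinearMap.snd ℝ V (V × V × E))))
  have hp : HasFDerivAt (fun s : V × V × V × E => ((s.1, s.2.1, s.2.2.1) : V × V × V)) Q s :=
    Q.hasFDerivAt
  have h := HasFDerivAt.comp s hF hp
  refine ⟨_, h, fun v => ?_⟩
  have e1 : F' (v.1, 0, 0) = fderiv ℝ (fun x' => OmG m A x' s.2.1 s.2.2.1) s.1 v.1 := by
    have k1 : HasFDerivAt (fun x' : V => ((x', s.2.1, s.2.2.1) : V × V × V))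
        (ContinuousLinearMap.inl ℝ V (V × V)) s.1 := hasFDerivAt_prodMk_left _ _
    have k2 := HasFDerivAt.comp s.1 hF k1
    have k3 : fderiv ℝ (fun x' => OmG m A x' s.2.1 s.2.2.1) s.1 = _ := k2.fderiv
    rw [k3]
    rfl
  have e2 : F' (0, v.2.1, v.2.2.1) = OmG m A s.1 v.2.1 s.2.2.1 + OmG m A s.1 s.2.1 v.2.2.1 := by
    have k1 : HasFDerivAt (fun u : V × V => ((s.1, u) : V × V × V))
        (ContinuousLinearMap.inr ℝ V (V × V)) (s.2.1, s.2.2.1) := hasFDerivAt_prodMk_right _ _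
    have k2 := HasFDerivAt.comp (s.2.1, s.2.2.1) hF k1
    have k3 : HasFDerivAt (fun u : V × V => B u.1 u.2) _ (s.2.1, s.2.2.1) :=
      (B.hasFDerivAt.comp _ hasFDerivAt_fst).clm_apply hasFDerivAt_snd
    have k4 : (fun u : V × V => B u.1 u.2)
        = (fun z : V × V × V => OmG m A z.1 z.2.1 z.2.2) ∘ (fun u : V × V => (s.1, u)) := by
      funext u
      exact (hB u.1 u.2).symm
    rw [k4] at k3
    have k5 := DFunLike.congr_fun (k2.unique k3) (v.2.1, v.2.2.1)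
    rw [hB, hB]
    simp at k5
    rw [k5, add_comm]
  have e3 : ((v.1, v.2.1, v.2.2.1) : V × V × V) = (v.1, 0, 0) + (0, v.2.1, v.2.2.1) := by simp
  change F' (v.1, v.2.1, v.2.2.1) = _
  rw [e3, map_add, e1, e2, add_assoc]

end

section
variable {V Y : Type*} [NormedAddCommGroup V] [NormedSpace ℝ V]
  [NormedAddCommGroup Y] [NormedSpace ℝ Y]

/-- projections of the states. -/
noncomputable def q1 (V Y : Type*) [NormedAddCommGroup V] [NormedSpace ℝ V] [NormedAddCommGroup Y]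
    [NormedSpace ℝ Y] : St V Y →L[ℝ] V := ContinuousLinearMap.fst ℝ V _
noncomputable def q2 (V Y : Type*) [NormedAddCommGroup V] [NormedSpace ℝ V] [NormedAddCommGroup Y]
    [NormedSpace ℝ Y] : St V Y →L[ℝ] V :=
  ContinuousLinearMap.fst ℝ V _ ∘L ContinuousLinearMap.snd ℝ V _
noncomputable def q4 (V Y : Type*) [NormedAddCommGroup V] [NormedSpace ℝ V] [NormedAddCommGroup Y]
    [NormedSpace ℝ Y] : St V Y →L[ℝ] Y :=
  ContinuousLinearMap.fst ℝ Y _ ∘L ContinuousLinearMap.snd ℝ V _ ∘L ContinuousLinearMap.snd ℝ V _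
    ∘L ContinuousLinearMap.snd ℝ V _
noncomputable def q5 (V Y : Type*) [NormedAddCommGroup V] [NormedSpace ℝ V] [NormedAddCommGroup Y]
    [NormedSpace ℝ Y] : St V Y →L[ℝ] Y :=
  ContinuousLinearMap.fst ℝ Y _ ∘L ContinuousLinearMap.snd ℝ Y _ ∘L ContinuousLinearMap.snd ℝ V _
    ∘L ContinuousLinearMap.snd ℝ V _ ∘L ContinuousLinearMap.snd ℝ V _
noncomputable def q6 (V Y : Type*) [NormedAddCommGroup V] [NormedSpace ℝ V] [NormedAddCommGroup Y]
    [NormedSpace ℝ Y] : St V Y →L[ℝ] Y :=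
  ContinuousLinearMap.fst ℝ Y _ ∘L ContinuousLinearMap.snd ℝ Y _ ∘L ContinuousLinearMap.snd ℝ Y _
    ∘L ContinuousLinearMap.snd ℝ V _ ∘L ContinuousLinearMap.snd ℝ V _
    ∘L ContinuousLinearMap.snd ℝ V _
noncomputable def q7 (V Y : Type*) [NormedAddCommGroup V] [NormedSpace ℝ V] [NormedAddCommGroup Y]
    [NormedSpace ℝ Y] : St V Y →L[ℝ] Y :=
  ContinuousLinearMap.snd ℝ Y _ ∘L ContinuousLinearMap.snd ℝ Y _ ∘L ContinuousLinearMap.snd ℝ Y _
    ∘L ContinuousLinearMap.snd ℝ V _ ∘L ContinuousLinearMap.snd ℝ V _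
    ∘L ContinuousLinearMap.snd ℝ V _

lemma has2 (s : St V Y) : HasFDerivAt (fun s : St V Y => s.2.1) (q2 V Y) s := (q2 V Y).hasFDerivAt
lemma has4 (s : St V Y) : HasFDerivAt (fun s : St V Y => s.2.2.2.1) (q4 V Y) s :=
  (q4 V Y).hasFDerivAt
lemma has5 (s : St V Y) : HasFDerivAt (fun s : St V Y => s.2.2.2.2.1) (q5 V Y) s :=
  (q5 V Y).hasFDerivAt
lemma has6 (s : St V Y) : HasFDerivAt (fun s : St V Y => s.2.2.2.2.2.1) (q6 V Y) s :=
  (q6 V Y).hasFDerivAt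
lemma has7 (s : St V Y) : HasFDerivAt (fun s : St V Y => s.2.2.2.2.2.2) (q7 V Y) s :=
  (q7 V Y).hasFDerivAt

/-- functions of the base point. -/
lemma hasB {W : Type*} [NormedAddCommGroup W] [NormedSpace ℝ W] {f : V → W} (s : St V Y)
    (hf : DifferentiableAt ℝ f s.1) :
    ∃ L : St V Y →L[ℝ] W, HasFDerivAt (fun s : St V Y => f s.1) L s ∧
      ∀ v, L v = fderiv ℝ f s.1 v.1 :=
  ⟨fderiv ℝ f s.1 ∘L q1 V Y, hf.hasFDerivAt.comp s (q1 V Y).hasFDerivAt, fun _ => rfl⟩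

/-- the vertical components of the spray. -/
lemma has_vert {A : V → V →L[ℝ] Y →L[ℝ] Y} {ρ : St V Y → Y} {ρ' : St V Y →L[ℝ] Y} {s : St V Y}
    (hA : DifferentiableAt ℝ A s.1) (hρ : HasFDerivAt ρ ρ' s) :
    ∃ L : St V Y →L[ℝ] Y, HasFDerivAt (fun s => - A s.1 s.2.1 (ρ s)) L s ∧
      ∀ v, L v = - (fderiv ℝ A s.1 v.1 s.2.1 (ρ s) + A s.1 v.2.1 (ρ s) + A s.1 s.2.1 (ρ' v)) := by
  obtain ⟨L0, h0, e0⟩ := hasB s hA
  obtain ⟨L1, h1, e1⟩ := has_step h0 (has2 s)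
  obtain ⟨L2, h2, e2⟩ := has_step h1 hρ
  refine ⟨-L2, h2.neg, fun v => ?_⟩
  rw [neg_apply, e2, e1, e0]
  rfl

variable {D : BD V Y} {x : V}

/-- the 4-linear form as a function. -/
noncomputable def S4 (S : V → Y →L[ℝ] Y →L[ℝ] Y →L[ℝ] Y →L[ℝ] ℝ) (z : V × (Y × Y × Y × Y)) : ℝ :=
  S z.1 z.2.1 z.2.2.1 z.2.2.2.1 z.2.2.2.2

lemma S4_smooth {S : V → Y →L[ℝ] Y →L[ℝ] Y →L[ℝ] Y →L[ℝ] ℝ} {z : V × (Y × Y × Y × Y)}
    (hS : ContDiffAt ℝ 2 S z.1) : ContDiffAt ℝ 2 (S4 S) z := by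
  have p1 : ContDiffAt ℝ 2 (fun z : V × (Y × Y × Y × Y) => z.2.1) z :=
    (contDiff_fst.comp contDiff_snd).contDiffAt
  have p2 : ContDiffAt ℝ 2 (fun z : V × (Y × Y × Y × Y) => z.2.2.1) z :=
    (contDiff_fst.comp (contDiff_snd.comp contDiff_snd)).contDiffAt
  have p3 : ContDiffAt ℝ 2 (fun z : V × (Y × Y × Y × Y) => z.2.2.2.1) z :=
    (contDiff_fst.comp (contDiff_snd.comp (contDiff_snd.comp contDiff_snd))).contDiffAt
  have p4 : ContDiffAt ℝ 2 (fun z : V × (Y × Y × Y × Y) => z.2.2.2.2) z :=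
    (contDiff_snd.comp (contDiff_snd.comp (contDiff_snd.comp contDiff_snd))).contDiffAt
  have h0 : ContDiffAt ℝ 2 (fun z : V × (Y × Y × Y × Y) => S z.1) z :=
    ContDiffAt.comp z hS contDiffAt_fst
  exact (((h0.clm_apply p1).clm_apply p2).clm_apply p3).clm_apply p4

/-- the vertical part of the spray. -/
lemma has_G {s : St V Y} (hA : DifferentiableAt ℝ D.A s.1) (A0 : D.A s.1 = 0)
    (A1 : ∀ ζ, fderiv ℝ D.A s.1 ζ ζ = 0) :
    ∃ L : St V Y →L[ℝ] (Y × Y × Y × Y), HasFDerivAt (fun s => (D.Xs s).2.2.2) L s ∧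
      L (D.Xs s) = 0 := by
  obtain ⟨M1, h1, e1⟩ := has_vert hA (has4 s)
  obtain ⟨M2, h2, e2⟩ := has_vert hA (has5 s)
  obtain ⟨M3, h3, e3⟩ := has_vert hA (has6 s)
  obtain ⟨M4, h4, e4⟩ := has_vert hA (has7 s)
  refine ⟨_, h1.prodMk (h2.prodMk (h3.prodMk h4)), ?_⟩
  have a1 : fderiv ℝ D.A s.1 (D.Xs s).1 s.2.1 = 0 := A1 s.2.1
  have m1 : M1 (D.Xs s) = 0 := by
    rw [e1, a1, A0]; simp
  have m2 : M2 (D.Xs s) = 0 := by
    rw [e2, a1, A0]; simp
  have m3 : M3 (D.Xs s) = 0 := by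
    rw [e3, a1, A0]; simp
  have m4 : M4 (D.Xs s) = 0 := by
    rw [e4, a1, A0]; simp
  change (M1 (D.Xs s), M2 (D.Xs s), M3 (D.Xs s), M4 (D.Xs s)) = 0
  rw [m1, m2, m3, m4]
  rfl

lemma Xs_G {s : St V Y} (A0 : D.A s.1 = 0) : (D.Xs s).2.2.2 = 0 := by
  simp [BD.Xs, A0]

/-- the first Lie derivative of `SS` at a state over a point where `A` is normal. -/
lemma lie_SS (X U : V) (a b c d : Y) (hF : ContDiffAt ℝ 2 (S4 D.S) (x, (a, b, c, d)))
    (A0 : D.A x = 0) :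
    lie D.Xs D.SS (x, X, U, a, b, c, d) = dS4 D.S x X a b c d := by
  set s : St V Y := (x, X, U, a, b, c, d) with hs
  have h := lie_one D.Xs (F := S4 D.S) (s := s) (hF.differentiableAt (by norm_num))
  have g : (D.Xs s).2.2.2 = 0 := Xs_G A0
  rw [g, ← fd_fst (hF.differentiableAt (by norm_num))] at h
  exact h

/-- the second Lie derivative of `SS` at a state over a point where `A` is normal. -/
lemma lie_lie_SS (X U : V) (a b c d : Y) (hF : ContDiffAt ℝ 2 (S4 D.S) (x, (a, b, c, d)))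
    (hA : DifferentiableAt ℝ D.A x) (A0 : D.A x = 0)
    (A1 : ∀ ζ, fderiv ℝ D.A x ζ ζ = 0) :
    lie D.Xs (lie D.Xs D.SS) (x, X, U, a, b, c, d) = hS4 D.h D.S x X X a b c d := by
  set s : St V Y := (x, X, U, a, b, c, d) with hs
  obtain ⟨L, hL, eL⟩ := has_G (s := s) hA A0 A1
  have h := lie_two D.Xs (F := S4 D.S) (s := s) hF (fun _ => rfl) hL (Xs_G A0) eL
  have e : fderiv ℝ (fun x' => S4 D.S (x', s.2.2.2)) s.1 (D.Xs s).2.1
      = - dS4 D.S x (Gam D.h x X X) a b c d := by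
    have e1 : (D.Xs s).2.1 = - Gam D.h x X X := rfl
    rw [e1, map_neg]
    rfl
  rw [e] at h
  rw [hS4, sub_eq_add_neg]
  exact h

lemma OmV_eq (A : V → V →L[ℝ] Y →L[ℝ] Y) (x ζ ζ' : V) :
    OmV A x ζ ζ' = OmG (ContinuousLinearMap.compL ℝ Y Y Y) A x ζ ζ' := rfl

/-- the Lie derivative of `OmS` at a state over a point where `A` is normal. -/
lemma lie_OmS (hk : DifferentiableAt ℝ D.k x) (hA : ContDiffAt ℝ 2 D.A x) (k1 : fderiv ℝ D.k x = 0)
    (A0 : D.A x = 0) (X U : V) (a b c d : Y) :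
    lie D.Xs D.OmS (x, X, U, a, b, c, d) = D.k x a (DOmV D.h D.A x X X U b) := by
  set s : St V Y := (x, X, U, a, b, c, d) with hs
  have hv : D.Xs s = (X, - Gam D.h x X X, - Gam D.h x X U, 0, 0, 0, 0) := by
    simp [BD.Xs, hs, A0]
  obtain ⟨L0, h0, e0⟩ := hasB s hk
  obtain ⟨L1, h1, e1⟩ := has_step h0 (has4 s)
  obtain ⟨K, hK, eK⟩ := has_Om (s := s) (ContinuousLinearMap.compL ℝ Y Y Y) hA
  obtain ⟨L2, h2, e2⟩ := has_step hK (has5 s)
  obtain ⟨L3, h3, e3⟩ := has_step h1 h2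
  have e4 : fderiv ℝ D.OmS s = L3 := h3.fderiv
  have v1 : (D.Xs s).1 = X := by rw [hv]
  have v2 : (D.Xs s).2.1 = - Gam D.h x X X := by rw [hv]
  have v3 : (D.Xs s).2.2.1 = - Gam D.h x X U := by rw [hv]
  have v4 : q4 V Y (D.Xs s) = 0 := by rw [hv]; rfl
  have v5 : q5 V Y (D.Xs s) = 0 := by rw [hv]; rfl
  have k1' : fderiv ℝ D.k s.1 = 0 := k1
  obtain ⟨B, hB⟩ := OmG_add_left (ContinuousLinearMap.compL ℝ Y Y Y) D.A x
  have hB' : ∀ ζ ζ', OmG (ContinuousLinearMap.compL ℝ Y Y Y) D.A s.1 ζ ζ' = B ζ ζ' := hB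
  rw [lie, e4, e3, e2, e1, e0, k1', v4, v5, eK, v1, v2, v3, hB' (-Gam D.h x X X),
    hB' s.2.1 (-Gam D.h x X U)]
  simp only [map_zero, zero_apply, add_zero, zero_add, map_neg, neg_apply]
  have e5 : DOmV D.h D.A x X X U = fderiv ℝ (fun x' => OmG (ContinuousLinearMap.compL ℝ Y Y Y) D.A x' X U) x X
      - B (Gam D.h x X X) U - B X (Gam D.h x X U) := by
    rw [DOmV, A0, OmV_eq _ _ (Gam D.h x X X), OmV_eq _ _ X (Gam D.h x X U), hB, hB]
    simp
    rfl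
  rw [e5]
  change D.k x a ((fderiv ℝ (fun x' => OmG (ContinuousLinearMap.compL ℝ Y Y Y) D.A x' X U) x X
    + - B (Gam D.h x X X) U + - B X (Gam D.h x X U)) b) = _
  rw [sub_eq_add_neg, sub_eq_add_neg]

-- MB-8c : the Lie derivatives in normal gauge
theorem lie_NG [FiniteDimensional ℝ V] [FiniteDimensional ℝ Y] (H : D.Good x)
    (N : NG D.h D.k D.S D.A x) (X U : V) (a b c d : Y) :
    lie D.Xs D.OmS (x, X, U, a, b, c, d) = D.k x a (DOmV D.h D.A x X X U b) ∧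
    lie D.Xs D.SS (x, X, U, a, b, c, d) = dS4 D.S x X a b c d ∧
    lie D.Xs (lie D.Xs D.SS) (x, X, U, a, b, c, d) = hS4 D.h D.S x X X a b c d := by
  have _ := H
  have hF : ContDiffAt ℝ 2 (S4 D.S) (x, (a, b, c, d)) := S4_smooth (z := (x, (a, b, c, d))) N.hS
  exact ⟨lie_OmS (N.hm.smooth.differentiableAt (by norm_num)) N.hA N.m1 N.A0 X U a b c d,
    lie_SS X U a b c d hF N.A0,
    lie_lie_SS X U a b c d hF (N.hA.differentiableAt (by norm_num)) N.A0 N.A1⟩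

end

end Pool.Agent.Helper93.MB
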